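import Mathlib

/-!
MP_4ec7af_co, Q1: the cycle `C_17` is the IR-graph of the circulant graph on `Z_17` with
connection set `{1, 2, 3, 4, 5, 7}` (up to sign).
-/

namespace Pool.Agent.Results.MP_4ec7af_co.CycleSeventeen

open Finset

section Defs

variable {V : Type} [DecidableEq V]

/-- The set of `D`-private neighbours of `v`. -/
def PN (G : SimpleGraph V) (v : V) (D : Finset V) : Set V :=
  {w | (w = v ∨ G.Adj v w) ∧ ∀ u ∈ D, u ≠ v → ¬ (w = u ∨ G.Adj u w)}

/-- `D` is irredundant. -/
def Irredundant (G : SimpleGraph V) (D : Finset V) : Prop :=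
  ∀ v ∈ D, (PN G v D).Nonempty

/-- `D` is an irredundant set of maximum size. -/
def IsIRSet (G : SimpleGraph V) (D : Finset V) : Prop :=
  Irredundant G D ∧ ∀ T : Finset V, Irredundant G T → T.card ≤ D.card

/-- One vertex `u` of `D` is exchanged for a neighbour `v`, which gives `D'`. -/
def Slides (G : SimpleGraph V) (D D' : Finset V) : Prop :=
  ∃ u ∈ D, ∃ v ∈ D', v ≠ u ∧ G.Adj u v ∧ D' = insert v (D.erase u)

/-- The slide relation between sets of the same size is symmetric. -/
lemma slides_symm (G : SimpleGraph V) (D D' : Finset V) (hc : D.card = D'.card)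
    (h : Slides G D D') : Slides G D' D := by
  obtain ⟨u, hu, v, hv, hvu, hadj, rfl⟩ := h
  have hvn : v ∉ D.erase u := by
    intro h3
    rw [Finset.insert_eq_of_mem h3, Finset.card_erase_of_mem hu] at hc
    have := Finset.card_pos.mpr ⟨u, hu⟩
    omega
  exact ⟨v, hv, u, hu, hvu.symm, hadj.symm, by
    rw [Finset.erase_insert hvn, Finset.insert_erase hu]⟩

lemma slides_irrefl (G : SimpleGraph V) (D : Finset V) : ¬ Slides G D D := by
  rintro ⟨u, hu, v, hv, hvu, _, h⟩
  rw [h] at hu
  rw [Finset.mem_insert] at hu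
  rcases hu with hu | hu
  · exact hvu hu.symm
  · exact absurd rfl (Finset.ne_of_mem_erase hu)

/-- The IR-graph of `G`. -/
def IRGraph (G : SimpleGraph V) : SimpleGraph {D : Finset V // IsIRSet G D} where
  Adj D D' := Slides G D.1 D'.1
  symm := ⟨fun D D' h => slides_symm G D.1 D'.1
    (le_antisymm (D'.2.2 _ D.2.1) (D.2.2 _ D'.2.1)) h⟩
  loopless := ⟨fun D h => slides_irrefl G D.1 h⟩

end Defs

/-- Bit mask of the differences which give adjacency, in `Z_17`. -/
def msk : ℕ := 2^1 + 2^2 + 2^3 + 2^4 + 2^5 + 2^7 + 2^10 + 2^12 + 2^13 + 2^14 + 2^15 + 2^16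

def adjB (a b : Fin 17) : Bool := msk.testBit ((a.val + 17 - b.val) % 17)

/-- The circulant graph. -/
def G : SimpleGraph (Fin 17) where
  Adj a b := adjB a b = true
  symm := ⟨by decide⟩
  loopless := ⟨by decide⟩

def nB (a w : Fin 17) : Bool := (msk + 1).testBit ((a.val + 17 - w.val) % 17)

lemma nB_iff : ∀ a w : Fin 17, nB a w = true ↔ (w = a ∨ adjB a w = true) := by decide +kernel

def privB (x : Fin 17) (o : List (Fin 17)) : Bool :=
  (List.finRange 17).any (fun w => nB x w && o.all (fun u => !nB u w))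

lemma privB_of (D : Finset (Fin 17)) (x : Fin 17) (o : List (Fin 17))
    (h : (PN G x D).Nonempty) (ho : ∀ u ∈ o, u ∈ D ∧ u ≠ x) : privB x o = true := by
  obtain ⟨w, hw1, hw2⟩ := h
  unfold privB
  rw [List.any_eq_true]
  refine ⟨w, List.mem_finRange w, ?_⟩
  rw [Bool.and_eq_true, List.all_eq_true]
  refine ⟨(nB_iff x w).mpr hw1, fun u hu => ?_⟩
  have := hw2 u (ho u hu).1 (ho u hu).2
  rw [Bool.not_eq_true', ← Bool.not_eq_true]
  intro h3
  exact this ((nB_iff u w).mp h3)

lemma of_privB (D : Finset (Fin 17)) (x : Fin 17) (o : List (Fin 17))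
    (h : privB x o = true) (ho : ∀ u ∈ D, u ≠ x → u ∈ o) : (PN G x D).Nonempty := by
  unfold privB at h
  rw [List.any_eq_true] at h
  obtain ⟨w, _, hw⟩ := h
  rw [Bool.and_eq_true, List.all_eq_true] at hw
  refine ⟨w, (nB_iff x w).mp hw.1, fun u hu hux h3 => ?_⟩
  have := hw.2 u (ho u hu hux)
  rw [(nB_iff u w).mpr h3] at this
  simp at this

def four (a b c d : Fin 17) : Bool :=
  privB a [b, c, d] && privB b [a, c, d] && privB c [a, b, d] && privB d [a, b, c]

def three (a b c : Fin 17) : Bool :=
  privB a [b, c] && privB b [a, c] && privB c [a, b]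

lemma no_four : ∀ a b : Fin 17, a < b → ∀ c, b < c → ∀ d, c < d → four a b c d = false := by
  decide +kernel

/-- The seventeen maximum irredundant sets in the order of the cycle. -/
def sets (j : Fin 17) : Finset (Fin 17) := {j, j + 1, j + 2}

lemma three_sets : ∀ a b : Fin 17, a < b → ∀ c, b < c → three a b c = true →
    ∃ j, sets j = {a, b, c} := by
  decide +kernel

lemma sets_three : ∀ j : Fin 17, three j (j + 1) (j + 2) = true := by
  decide +kernel

lemma sets_card : ∀ j, (sets j).card = 3 := by decide +kernel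

lemma sets_inj : ∀ i j, sets i = sets j → i = j := by decide +kernel

lemma irr_sets (j : Fin 17) : Irredundant G (sets j) := by
  have h := sets_three j
  unfold three at h
  rw [Bool.and_eq_true, Bool.and_eq_true] at h
  obtain ⟨⟨h1, h2⟩, h3⟩ := h
  intro v hv
  unfold sets at hv
  rw [Finset.mem_insert, Finset.mem_insert, Finset.mem_singleton] at hv
  rcases hv with rfl | rfl | rfl
  · refine of_privB _ _ _ h1 (fun u hu hne => ?_)
    unfold sets at hu
    rw [Finset.mem_insert, Finset.mem_insert, Finset.mem_singleton] at hu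
    simp only [List.mem_cons, List.not_mem_nil, or_false]
    tauto
  · refine of_privB _ _ _ h2 (fun u hu hne => ?_)
    unfold sets at hu
    rw [Finset.mem_insert, Finset.mem_insert, Finset.mem_singleton] at hu
    simp only [List.mem_cons, List.not_mem_nil, or_false]
    tauto
  · refine of_privB _ _ _ h3 (fun u hu hne => ?_)
    unfold sets at hu
    rw [Finset.mem_insert, Finset.mem_insert, Finset.mem_singleton] at hu
    simp only [List.mem_cons, List.not_mem_nil, or_false]
    tauto

lemma irr_subset (T U : Finset (Fin 17)) (hT : Irredundant G T) (hU : U ⊆ T) :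
    Irredundant G U := by
  intro v hv
  obtain ⟨w, hw1, hw2⟩ := hT v (hU hv)
  exact ⟨w, hw1, fun u hu => hw2 u (hU hu)⟩

lemma irr_le (T : Finset (Fin 17)) (hT : Irredundant G T) : T.card ≤ 3 := by
  by_contra hcon
  push Not at hcon
  obtain ⟨U, hUT, hU⟩ := Finset.exists_subset_card_eq (n := 4) (s := T) (by omega)
  have hirr := irr_subset T U hT hUT
  let e := U.orderEmbOfFin hU
  have hmem : ∀ i, e i ∈ U := fun i => Finset.orderEmbOfFin_mem U hU i
  have h01 : e 0 < e 1 := e.strictMono (by decide)
  have h12 : e 1 < e 2 := e.strictMono (by decide)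
  have h23 : e 2 < e 3 := e.strictMono (by decide)
  have hno := no_four (e 0) (e 1) h01 (e 2) h12 (e 3) h23
  have hyes : four (e 0) (e 1) (e 2) (e 3) = true := by
    unfold four
    rw [Bool.and_eq_true, Bool.and_eq_true, Bool.and_eq_true]
    refine ⟨⟨⟨?_, ?_⟩, ?_⟩, ?_⟩
    · refine privB_of U _ _ (hirr _ (hmem 0)) (fun u hu => ?_)
      simp only [List.mem_cons, List.not_mem_nil, or_false] at hu
      rcases hu with rfl | rfl | rfl
      · exact ⟨hmem 1, by intro h; rw [h] at h01; exact lt_irrefl _ h01⟩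
      · exact ⟨hmem 2, by intro h; rw [h] at h12; exact lt_irrefl _ (h01.trans h12)⟩
      · exact ⟨hmem 3, by intro h; rw [h] at h23; exact lt_irrefl _ ((h01.trans h12).trans h23)⟩
    · refine privB_of U _ _ (hirr _ (hmem 1)) (fun u hu => ?_)
      simp only [List.mem_cons, List.not_mem_nil, or_false] at hu
      rcases hu with rfl | rfl | rfl
      · exact ⟨hmem 0, by intro h; rw [h] at h01; exact lt_irrefl _ h01⟩
      · exact ⟨hmem 2, by intro h; rw [h] at h12; exact lt_irrefl _ h12⟩
      · exact ⟨hmem 3, by intro h; rw [h] at h23; exact lt_irrefl _ (h12.trans h23)⟩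
    · refine privB_of U _ _ (hirr _ (hmem 2)) (fun u hu => ?_)
      simp only [List.mem_cons, List.not_mem_nil, or_false] at hu
      rcases hu with rfl | rfl | rfl
      · exact ⟨hmem 0, by intro h; rw [h] at h01; exact lt_irrefl _ (h01.trans h12)⟩
      · exact ⟨hmem 1, by intro h; rw [h] at h12; exact lt_irrefl _ h12⟩
      · exact ⟨hmem 3, by intro h; rw [h] at h23; exact lt_irrefl _ h23⟩
    · refine privB_of U _ _ (hirr _ (hmem 3)) (fun u hu => ?_)
      simp only [List.mem_cons, List.not_mem_nil, or_false] at hu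
      rcases hu with rfl | rfl | rfl
      · exact ⟨hmem 0, by
          intro h; rw [h] at h01; exact lt_irrefl _ ((h01.trans h12).trans h23)⟩
      · exact ⟨hmem 1, by intro h; rw [h] at h12; exact lt_irrefl _ (h12.trans h23)⟩
      · exact ⟨hmem 2, by intro h; rw [h] at h23; exact lt_irrefl _ h23⟩
  rw [hyes] at hno
  exact absurd hno (by decide)

lemma sets_irset (j : Fin 17) : IsIRSet G (sets j) :=
  ⟨irr_sets j, fun T hT => by rw [sets_card]; exact irr_le T hT⟩

lemma irset_eq (U : Finset (Fin 17)) (h : IsIRSet G U) : ∃ j, sets j = U := by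
  have hU : U.card = 3 := by
    apply le_antisymm (irr_le U h.1)
    rw [← sets_card 0]
    exact h.2 _ (irr_sets 0)
  have hirr := h.1
  let e := U.orderEmbOfFin hU
  have hmem : ∀ i, e i ∈ U := fun i => Finset.orderEmbOfFin_mem U hU i
  have h01 : e 0 < e 1 := e.strictMono (by decide)
  have h12 : e 1 < e 2 := e.strictMono (by decide)
  have hyes : three (e 0) (e 1) (e 2) = true := by
    unfold three
    rw [Bool.and_eq_true, Bool.and_eq_true]
    refine ⟨⟨?_, ?_⟩, ?_⟩
    · refine privB_of U _ _ (hirr _ (hmem 0)) (fun u hu => ?_)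
      simp only [List.mem_cons, List.not_mem_nil, or_false] at hu
      rcases hu with rfl | rfl
      · exact ⟨hmem 1, by intro h; rw [h] at h01; exact lt_irrefl _ h01⟩
      · exact ⟨hmem 2, by intro h; rw [h] at h12; exact lt_irrefl _ (h01.trans h12)⟩
    · refine privB_of U _ _ (hirr _ (hmem 1)) (fun u hu => ?_)
      simp only [List.mem_cons, List.not_mem_nil, or_false] at hu
      rcases hu with rfl | rfl
      · exact ⟨hmem 0, by intro h; rw [h] at h01; exact lt_irrefl _ h01⟩
      · exact ⟨hmem 2, by intro h; rw [h] at h12; exact lt_irrefl _ h12⟩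
    · refine privB_of U _ _ (hirr _ (hmem 2)) (fun u hu => ?_)
      simp only [List.mem_cons, List.not_mem_nil, or_false] at hu
      rcases hu with rfl | rfl
      · exact ⟨hmem 0, by intro h; rw [h] at h01; exact lt_irrefl _ (h01.trans h12)⟩
      · exact ⟨hmem 1, by intro h; rw [h] at h12; exact lt_irrefl _ h12⟩
  obtain ⟨j, hj⟩ := three_sets _ _ h01 _ h12 hyes
  refine ⟨j, ?_⟩
  apply Finset.eq_of_subset_of_card_le
  · rw [hj]
    intro x hx
    rw [Finset.mem_insert, Finset.mem_insert, Finset.mem_singleton] at hx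
    rcases hx with rfl | rfl | rfl
    · exact hmem 0
    · exact hmem 1
    · exact hmem 2
  · rw [hU, sets_card]

/-- The map from the cycle to the IR-graph. -/
def toV (i : Fin 17) : {D : Finset (Fin 17) // IsIRSet G D} := ⟨sets i, sets_irset i⟩

lemma toV_bij : Function.Bijective toV := by
  constructor
  · intro i j h
    exact sets_inj i j (congrArg Subtype.val h)
  · rintro ⟨U, hU⟩
    obtain ⟨j, hj⟩ := irset_eq U hU
    exact ⟨j, Subtype.ext hj⟩

def slB (D D' : Finset (Fin 17)) : Prop :=
  ∃ u ∈ D, ∃ v ∈ D', v ≠ u ∧ adjB u v = true ∧ D' = insert v (D.erase u)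

instance : DecidableRel slB := fun D D' => by unfold slB; infer_instance

lemma key : ∀ i j : Fin 17, slB (sets i) (sets j) ↔ (i = j + 1 ∨ j = i + 1) := by
  decide +kernel

lemma cyc : ∀ i j : Fin 17, (i = j + 1 ∨ j = i + 1) ↔ (SimpleGraph.cycleGraph 17).Adj i j := by
  decide +kernel

/-- The cycle with seventeen vertices is an IR-graph, so Q1 is answered in the negative. -/
theorem result : ∃ H : SimpleGraph (Fin 17), Nonempty (IRGraph H ≃g SimpleGraph.cycleGraph 17) := by
  refine ⟨G, ⟨RelIso.symm ⟨Equiv.ofBijective toV toV_bij, ?_⟩⟩⟩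
  intro i j
  show Slides G (sets i) (sets j) ↔ _
  have h1 : Slides G (sets i) (sets j) ↔ slB (sets i) (sets j) := Iff.rfl
  rw [h1, key]
  exact cyc i j

end Pool.Agent.Results.MP_4ec7af_co.CycleSeventeen
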